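import Pool.Agent.HT177.Split.MQ

/-!
# Ranks and Tate-Shafarevich groups of quadratic twists which do not grow in many multiquadratic extensions of `F_q(t)`

Let `k` be a finite field of characteristic different from `2` in which `-1` is a square, `K = k(t)`, and
let `E : y² = x (x - a) (x - b)` be an elliptic curve over `K`, where `a`, `b` are coprime polynomials, `a`,
`b`, `a - b` have the same degree `N` and none of `a b`, `a (a - b)`, `b (a - b)` is a constant multiple of
a square. `E_D : y² = x (x - a D) (x - b D)` are the quadratic twists of `E`. Let `NonSplitTwists a b n` be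
the set of the monic squarefree polynomials `D` of degree `n`, prime to `a b (a - b)`, for which `E_D` has
non-split multiplicative reduction at all the finite places at which `E` has bad reduction, and let `n` go to
infinity through the numbers with `n + N` odd. Let `m_0, m_1, m_2, …` be ANY sequence of pairwise coprime
nonconstant monic squarefree polynomials of even degree that are squares modulo all the prime divisors of
`a b (a - b)`, and for a finite set `I` of numbers let `L_I = K(√m_i, i ∈ I)`, a Galois extension of `K`.
Let `c = ∏_{i odd} (1 - 2^{-i}) = 0.4194…`. A curve over `K` is called good if its group of points over `K`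
is finite and the 2-primary part of its Tate-Shafarevich group over `K` is zero.

* Let `I_0, I_1, …` be pairwise disjoint sets with `n` elements. For all `J` and `ε` the `D` for which the
  frequency of the `j < J` such that all the twists of `E_D` by the NONTRIVIAL quadratic characters of
  `Gal(L_{I_j}/K)` are good differs from `c ^ (2 ^ n - 1)` by at least `ε` have a limit proportion, which is
  at most `2 exp (- ε² J / 4)`; for every `M`, for `100 %` of the `D` there are at least `M` such `j`.
* For such `D` and `j`, with `L = L_{I_j}`: a fixed positive multiple of every point in `E_D(L)` belongs to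
  `E_D(K)` (so the ranks over `L` and over `K` are equal), and for every class `x` in the 2-primary part of
  the Tate-Shafarevich group of `E_D` over `L`, `2 ^ n x` is the restriction of a class in the 2-primary
  part of the Tate-Shafarevich group of `E_D` over `K`.
-/

set_option autoImplicit false

namespace Pool.Agent.Results.MP_72e2e6_nt.BlocksWithoutGrowth

open Polynomial Filter IsDedekindDomain Pool.Agent.TH115.GD Pool.Agent.HT177.Split.MQ
open scoped Classical

theorem result (k : Type) [Field k] [Finite k] (h2 : (2 : k) ≠ 0) (hi : IsSquare (-1 : k))
    (K : Type) [Field K] [Algebra k[X] K] [IsFractionRing k[X] K] (a b : k[X]) (N : ℕ)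
    (hco : IsCoprime a b) (ha : a.natDegree = N) (hb : b.natDegree = N)
    (hab : (a - b).natDegree = N) (h₁ : NotConstSquare (a * b))
    (h₂ : NotConstSquare (a * (a - b))) (h₃ : NotConstSquare (b * (a - b)))
    (m : ℕ → k[X]) (hm : Multipliers a b m) :
    (∀ (n : ℕ) (I : ℕ → Finset ℕ), (∀ j, (I j).card = n) → (∀ i j, i ≠ j → Disjoint (I i) (I j)) →
      (∀ J : ℕ, 0 < J → ∀ ε : ℝ, 0 < ε → ∃ l : ℝ, l ≤ 2 * Real.exp (-(ε ^ 2 * J / 4)) ∧
        Tendsto (proportion a b fun D => ε ≤ |(((Finset.range J).filter fun j =>
          NontrivialTwistsGood K a b m (I j) D).card : ℝ) / J - c ^ (2 ^ n - 1)|)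
            (degrees N) (nhds l)) ∧
      ∀ M : ℕ, Tendsto (proportion a b fun D => ∃ F : Finset ℕ, F.card = M ∧ ∀ j ∈ F,
        NontrivialTwistsGood K a b m (I j) D) (degrees N) (nhds 1)) ∧
    (∀ (D : k[X]) (I : Finset ℕ), NontrivialTwistsGood K a b m I D →
      SameRank (twist K a b D) (extension K m I) ∧
        ShaRestricted k (twist K a b D) (extension K m I) I.card) ∧
    0.4194 < c ∧ c < 0.4195 := by
  obtain ⟨-, -, h5, h6, h7, h8⟩ := all k h2 hi K a b N hco ha hb hab h₁ h₂ h₃ m hm
  exact ⟨h5, h6, h7, h8⟩

end Pool.Agent.Results.MP_72e2e6_nt.BlocksWithoutGrowth
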