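import Pool.Agent.Q269.SX.Avg
import Pool.Agent.Q269.SX.Grp
import Pool.Agent.Q269.SX.Asm
import Pool.Agent.Q269.AV.A4

/-!
# The exact averages of the orders of the 2-Selmer groups of the quadratic twists of hyperelliptic Jacobians of every
# genus over `k(t)`

Let `k` be a finite field of characteristic different from 2 in which `-1` is a square, `K = k(t)`, and
let `R` be a finite set. For each `r` in `R` let `n r ≥ 3` be an odd number and let `a r 1, …, a r (n r)`
be polynomials over `k` whose differences have the same degree `N r ≥ 1` and a squarefree product `Δ r`;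
suppose that `Δ r` and `Δ r'` are coprime for `r ≠ r'`. For a monic squarefree polynomial `D` prime to
all the `Δ r` let `C(r, D)` be the curve of genus `(n r - 1) / 2`

`y ^ 2 = D(t) (x - a r 1) ⋯ (x - a r (n r))`

over `K`, the quadratic twist by `D` of `C(r, 1)`, and let `J(r, D)` be its Jacobian. All the curves are
twisted by the same polynomial `D`. The group `J(r, D)(L)`, `L` an extension of `K`, is the class group of
the affine curve (there is one point at infinity and it is rational). Let

`S(r, D) = |J(K) / (J(K)[2] + 2 J(K))| |Ш'(J)[2]|`, `J = J(r, D)`,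

where `Ш'(J)` is the group of the classes in `H ^ 1 (K, J)` which are trivial over the completions of `K` at all the places
different from infinity; it contains the Tate-Shafarevich group. The first factor is at least `2 ^ rank J(K)` and the second one at
least `2 ^ c`, `c` the corank of the 2-primary part of the Tate-Shafarevich group.

The mean of a function of `D` is its mean over ALL the monic squarefree `D` of degree `m` prime to the `Δ r`; `k` is fixed and `m`
tends to infinity, `m + N r` odd for all `r`. Let `p(e) = (β / 2) 2 ^ e / ((2 - 1) (2 ^ 2 - 1) ⋯ (2 ^ e - 1))`,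
`β = ∏_(i ≥ 0) (1 - 2 ^ (- 2 i - 1)) = 0.4194…`, a probability distribution on the natural numbers.

Theorem. (1) For ALL these `D` the two groups are finite and `S(r, D) = 2 ^ (e(r, D))`.

(2) For EVERY real function `f` on the vectors `(e r)_(r ∈ R)` with `|f(e)| ≤ C ∏_r 2 ^ (u e r)` for some `u` and `C` the mean of
`f((e(r, D))_r)` converges to the expectation `∑_e f(e) ∏_r p(e r)` of `f` at a vector of independent random variables with the law `p`.

(3) For all natural numbers `u r` the mean of `∏_r S(r, D) ^ (u r)` converges to `∏_r (1 + 2) (1 + 2 ^ 2) ⋯ (1 + 2 ^ (u r))`: the mean of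
`S(r, D)` converges to 3, that of `S(r, D) ^ 2` to 15, that of `S(r, D) ^ 3` to 135.

(4) The mean of `e(r, D) = log₂ S(r, D)` converges to `ρ = ∑ e p(e)`, and `1.2644 < ρ ≤ 1.2647`.

The limits depend neither on the genus nor on `k`. Only the upper bounds in (3) and (4) were known (`AverageOrder`), from an upper bound for
`S(r, D)`; for the genus 1 over the rational numbers, in the mean over `D` of the moments of the full 2-Selmer group, see Heath-Brown (congruent numbers) and
Kane. The new point is the exact determination of the groups: a class in `H ^ 1 (K, J[2])` which satisfies the equations in terms of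
quadratic residue symbols is locally solvable everywhere, for every genus. The averages are more than the law of the `e(r, D)`, which alone
does not exclude that a set of twists of density zero carries a part of the averages: we use that the moments of all orders are bounded.
-/

set_option autoImplicit false
set_option linter.all false

namespace Pool.Agent.Results.MP_72e2e6_nt.ExactAverages

open Polynomial Filter IsDedekindDomain Pool.Agent.Y713.Jac
open scoped Classical

/-- The product of the differences `a i - a j`, `i < j`. -/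
noncomputable def differences {k : Type} [Field k] {n : ℕ} (a : Fin n → k[X]) : k[X] :=
  ∏ x ∈ (Finset.univ : Finset (Fin n × Fin n)).filter (fun x => x.1 < x.2), (a x.1 - a x.2)

/-- The curve: `k` is a finite field of characteristic different from two in which `-1` is a square, `n ≥ 3` is odd, the
differences `a i - a j` have the same degree `N ≥ 1`, and their product over `i < j` is squarefree. -/
structure Family {k : Type} [Field k] {n : ℕ} (a : Fin n → k[X]) (N : ℕ) : Prop where
  two : (2 : k) ≠ 0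
  square : IsSquare (-1 : k)
  odd : Odd n
  three : 3 ≤ n
  pos : 1 ≤ N
  degree : ∀ i j, i ≠ j → (a i - a j).natDegree = N
  squarefree : Squarefree (differences a)

/-- The monic squarefree polynomials `D` of degree `m` prime to the differences `a r i - a r j` of all
the families. -/
def Twists {k : Type} [Field k] {R : Type} {n : R → ℕ} (a : (r : R) → Fin (n r) → k[X]) (m : ℕ) :
    Set k[X] :=
  {D | D.Monic ∧ D.natDegree = m ∧ Squarefree D ∧ ∀ r i j, i ≠ j → IsCoprime D (a r i - a r j)}

/-- The polynomial `D(t) (x - a 1) ⋯ (x - a n)` in `x` over `K = k(t)`. -/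
noncomputable def twist {k : Type} [Field k] (K : Type) [Field K] [Algebra k[X] K] {n : ℕ}
    (a : Fin n → k[X]) (D : k[X]) : K[X] :=
  C (algebraMap k[X] K D) * ∏ i, (X - C (algebraMap k[X] K (a i)))

/-- The subgroup `J(K)[2] + 2 J(K)` of `J(K)`, `J` the Jacobian of `y ^ 2 = F(x)` over `K`: the group generated by the kernel and the
image of the squaring (multiplicative notation). -/
noncomputable def torsionAndDoubles {K : Type} [Field K] (F : K[X]) : Subgroup (J 2 F K) :=
  (powMonoidHom 2).ker ⊔ (powMonoidHom 2).range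

/-- The cocycles with values in `J` which are trivial over the completions of `K = Frac R` at the primes of `R` and whose class is
killed by two. -/
def LocallyTrivialTwo {K : Type} [Field K] (F : K[X]) (R : Type) [CommRing R] [IsDedekindDomain R] [Algebra R K]
    [IsFractionRing R K] : Type :=
  {c : Cochain 2 F // IsCocycle 2 F c ∧ IsLocallyTrivial 2 F R c ∧ IsCoboundary 2 F (fun σ => c σ ^ 2)}

/-- The number of the classes in `H ^ 1 (K, J)` killed by two which are trivial over the completions of `K` at the primes of `R`. -/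
noncomputable def shaOrder {K : Type} [Field K] (F : K[X]) (R : Type) [CommRing R] [IsDedekindDomain R] [Algebra R K]
    [IsFractionRing R K] : ℕ :=
  Nat.card (Quot fun c c' : LocallyTrivialTwo F R => IsCoboundary 2 F (fun σ => c.1 σ / c'.1 σ))

/-- Both groups are finite and the product of their orders is `M`. -/
structure HasOrder {K : Type} [Field K] (F : K[X]) (R : Type) [CommRing R] [IsDedekindDomain R] [Algebra R K]
    [IsFractionRing R K] (M : ℕ) : Prop where
  order : (torsionAndDoubles F).index * shaOrder F R = M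
  points : (torsionAndDoubles F).index ≠ 0
  sha : shaOrder F R ≠ 0

/-- `m` goes to infinity with `m + N r` odd for all `r`. -/
def degrees {R : Type} (N : R → ℕ) : Filter ℕ := atTop ⊓ 𝓟 {m | ∀ r, Odd (m + N r)}

/-- The mean of `f` over the set `S`. -/
noncomputable def mean {α : Type} (S : Set α) (f : α → ℝ) : ℝ := (∑ᶠ D ∈ S, f D) / (S.ncard : ℝ)

/-- The infinite product of the numbers `1 - 2 ^ (- 2 i - 1)`, `i ≥ 0`. -/
noncomputable def beta : ℝ := ∏' i : ℕ, (1 - (1 / 2 : ℝ) ^ (2 * i + 1))

/-- The probability of `e` in the law `p`. -/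
noncomputable def law (e : ℕ) : ℝ :=
  beta / 2 * (2 ^ e / ∏ i ∈ Finset.range e, ((2 : ℝ) ^ (i + 1) - 1))

/-- The mean value of the law `p`. -/
noncomputable def rho : ℝ := ∑' e : ℕ, (e : ℝ) * law e

section proof

open Pool.Agent.Q269.SX Pool.Agent.Y164.HG
open Pool.Agent.Q269.SL (law2)

theorem law_eq : law2 = law := by
  funext e
  rw [Pool.Agent.Q269.SL.law2_eq]
  rfl

theorem tad_eq {K : Type} [Field K] (F : K[X]) : torsionAndDoubles F = tsub F := by
  ext x
  unfold torsionAndDoubles
  rw [Subgroup.mem_sup]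
  constructor
  · rintro ⟨t, ht, z, ⟨y, rfl⟩, rfl⟩
    exact ⟨t, y, ht, rfl⟩
  · rintro ⟨t, y, ht, rfl⟩
    exact ⟨t, ht, y ^ 2, ⟨y, rfl⟩, rfl⟩

theorem order_of {K : Type} [Field K] {F : K[X]} {R : Type} [CommRing R] [IsDedekindDomain R] [Algebra R K]
    [IsFractionRing R K] {M : ℕ} (g1 : (tsub F).index * nSh F R = M) (g2 : (tsub F).index ≠ 0) (g3 : nSh F R ≠ 0) :
    HasOrder F R M :=
  ⟨by rw [tad_eq]; exact g1, by rw [tad_eq]; exact g2, g3⟩

theorem geo {k : Type} [Field k] [Fintype k] {n : ℕ} {a : Fin n → k[X]} {N : ℕ} (h : Family a N) : Geo a N := by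
  refine ⟨?_, h.square, h.odd, h.three, h.pos, h.degree, h.squarefree⟩
  intro h0
  apply h.two
  have := ringChar.Nat.cast_ringChar (R := k)
  rw [h0] at this
  exact_mod_cast this

variable {k : Type} [Field k] [Fintype k] {R : Type} [Fintype R] {n : R → ℕ} {a : ∀ r, Fin (n r) → k[X]}
  {N : R → ℕ}

theorem mem_tw {m : ℕ} {D : k[X]} : D ∈ Twists a m ↔ D ∈ Pool.Agent.Q269.GR.Dn (∏ r, Del (a r)) m :=
  Pool.Agent.Q269.SX.mem_twm

theorem ncard_tw (m : ℕ) : ((Pool.Agent.Q269.GR.Dn (∏ r, Del (a r)) m).card) = (Twists a m).ncard :=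
  (Pool.Agent.Q269.SX.card_twm m).symm

theorem ncard_fil (m : ℕ) (P Q : k[X] → Prop) (i : DecidablePred Q)
    (h : ∀ D, D ∈ Pool.Agent.Q269.GR.Dn (∏ r, Del (a r)) m → (Q D ↔ P D)) :
    (@Finset.filter _ Q i (Pool.Agent.Q269.GR.Dn (∏ r, Del (a r)) m)).card = {D ∈ Twists a m | P D}.ncard := by
  rw [← Set.ncard_coe_finset]
  congr 1
  ext D
  rw [Finset.mem_coe, Finset.mem_filter]
  show _ ↔ D ∈ Twists a m ∧ P D
  rw [mem_tw]
  exact and_congr_right fun hD => h D hD

theorem mean_eq (m : ℕ) (f : k[X] → ℝ) :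
    (∑ D ∈ Pool.Agent.Q269.GR.Dn (∏ r, Del (a r)) m, f D) / ((Pool.Agent.Q269.GR.Dn (∏ r, Del (a r)) m).card : ℝ) =
      mean (Twists a m) f := by
  have e1 : Twists a m = ((Pool.Agent.Q269.GR.Dn (∏ r, Del (a r)) m : Finset k[X]) : Set k[X]) := by
    ext D
    rw [Finset.mem_coe]
    exact mem_tw
  unfold mean
  rw [ncard_tw, e1, finsum_mem_coe_finset]

theorem rho_eq : rho = Pool.Agent.Q269.AV.rho := by
  rw [rho, ← law_eq]
  rfl

theorem lt_rho : 1.2644 < rho := by
  have e0 : 0.4194 < 2 * law 0 := by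
    have e1 : 2 * law 0 = ∏' i : ℕ, (1 - (1 / 2 : ℝ) ^ (2 * i + 1)) := by
      unfold law beta
      rw [Finset.prod_range_zero, pow_zero, div_one]
      ring
    rw [e1]
    exact Pool.Agent.Y948.CQ.t_C2.2.2.2.1
  have h1 : ∑ e ∈ Finset.range 7, (e : ℝ) * law2 e ≤ Pool.Agent.Q269.AV.rho :=
    Summable.sum_le_tsum (Finset.range 7) (fun e _ => mul_nonneg (Nat.cast_nonneg _) (Pool.Agent.Q269.SL.law2_nonneg e))
      Pool.Agent.Q269.AV.summable_elaw
  rw [← law_eq] at e0
  simp only [Pool.Agent.Q269.AV.law2_bb, Finset.sum_range_succ, Finset.range_zero, Finset.sum_empty,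
    Pool.Agent.Q269.AV.bb_zero, Pool.Agent.Q269.AV.bb_one, Pool.Agent.Q269.AV.bb_two, Pool.Agent.Q269.AV.bb_three,
    Pool.Agent.Q269.AV.bb_four, Pool.Agent.Q269.AV.bb_five, Pool.Agent.Q269.AV.bb_six] at h1 e0
  rw [rho_eq]
  norm_num at h1 e0 ⊢
  linarith

theorem rho_le : rho ≤ 1.2647 := by
  rw [rho_eq]
  refine Real.tsum_le_of_sum_range_le (fun e => mul_nonneg (Nat.cast_nonneg _) (Pool.Agent.Q269.SL.law2_nonneg e))
    fun n => ?_
  have h1 : ∑ e ∈ Finset.range n, (e : ℝ) * law2 e =
      Pool.Agent.Q269.MF.bet / 2 * ∑ e ∈ Finset.range n, (e : ℝ) * Pool.Agent.Q269.AV.bb e := by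
    rw [Finset.mul_sum]
    refine Finset.sum_congr rfl fun e _ => ?_
    rw [Pool.Agent.Q269.AV.law2_bb]
    ring
  rw [h1]
  obtain ⟨h2, h3⟩ := Pool.Agent.Q269.AV.bet_half_le
  have h4 := mul_le_mul_of_nonneg_left (Pool.Agent.Q269.AV.sum_eb n) h2
  refine h4.trans ?_
  norm_num at h3 ⊢
  linarith

end proof

open Pool.Agent.Q269.SX Pool.Agent.Y164.HG in
/-- **Theorem.** -/
theorem result (k : Type) [Field k] [Finite k] (K : Type) [Field K] [Algebra k[X] K] [IsFractionRing k[X] K]
    (R : Type) [Fintype R] [Nonempty R] (n N : R → ℕ) (a : (r : R) → Fin (n r) → k[X]) (h : ∀ r, Family (a r) (N r))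
    (hc : ∀ r r', r ≠ r' → IsCoprime (differences (a r)) (differences (a r'))) :
    HasSum law 1 ∧ Summable (fun e : ℕ => (e : ℝ) * law e) ∧ 1.2644 < rho ∧ rho ≤ 1.2647 ∧
    (∃ c : ℝ, 0 < c ∧ ∀ᶠ m : ℕ in atTop, c * (Nat.card k : ℝ) ^ m ≤ ((Twists a m).ncard : ℝ)) ∧
    ∃ e : k[X] → R → ℕ,
      (∀ m : ℕ, (∀ r, Odd (m + N r)) → ∀ D ∈ Twists a m, ∀ r, HasOrder (twist K (a r) D) k[X] (2 ^ e D r)) ∧
      (∀ (f : (R → ℕ) → ℝ) (u : ℕ) (C : ℝ), (∀ x, |f x| ≤ C * ∏ r, ((2 : ℝ) ^ u) ^ x r) →
        Summable (fun x : R → ℕ => f x * ∏ r, law (x r)) ∧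
        Tendsto (fun m => mean (Twists a m) fun D => f (e D)) (degrees N)
          (nhds (∑' x : R → ℕ, f x * ∏ r, law (x r)))) ∧
      (∀ u : R → ℕ, Tendsto (fun m => mean (Twists a m) fun D => ∏ r, ((2 : ℝ) ^ e D r) ^ u r) (degrees N)
        (nhds (∏ r, ∏ i ∈ Finset.range (u r), (1 + (2 : ℝ) ^ (i + 1))))) ∧
      ∀ r, Tendsto (fun m => mean (Twists a m) fun D => (e D r : ℝ)) (degrees N) (nhds rho) := by
  let _ : Fintype k := Fintype.ofFinite k
  obtain ⟨r₀⟩ := (inferInstance : Nonempty R)
  have H : ∀ r, Geo (a r) (N r) := fun r => geo (h r)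
  have hk : ringChar k ≠ 2 := (H r₀).hk
  have hm : IsSquare (-1 : k) := (H r₀).hm
  have hc' : ∀ r r', r ≠ r' → IsCoprime (Del (a r)) (Del (a r')) := hc
  have key : ∀ (f : (R → ℕ) → ℝ) (u : ℕ) (C : ℝ), (∀ x, |f x| ≤ C * wt u x) →
      Summable (fun x : R → ℕ => f x * ∏ r, law (x r)) ∧
      Tendsto (fun m => mean (Twists a m) fun D => f (fun r => ex (H r) D)) (degrees N)
        (nhds (∑' x : R → ℕ, f x * ∏ r, law (x r))) := by
    intro f u C hf
    obtain ⟨g1, g2⟩ := mean_all H Asm.d_SEL Asm.d_BDX Asm.d_KDR Asm.d_LWM Asm.d_CLS hc' hk hm f u C hf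
    rw [law_eq] at g1 g2
    refine ⟨g1, g2.congr fun m => ?_⟩
    exact mean_eq m _
  refine ⟨?_, ?_, lt_rho, ?_, ?_, fun D r => ex (H r) D, ?_, ?_, ?_, ?_⟩
  · rw [← law_eq]
    exact hasSum_law2
  · rw [← law_eq]
    exact Pool.Agent.Q269.AV.summable_elaw
  · exact rho_le
  · obtain ⟨c, hc0, h1⟩ := lowD H hc' hk hm
    refine ⟨c, hc0, ?_⟩
    filter_upwards [h1] with m hm'
    rw [ncard_tw] at hm'
    rw [Nat.card_eq_fintype_card]
    exact hm'
  · intro m ho D hD r
    have hD' : D ∈ Pool.Agent.Q269.GR.Dn (Del (a r)) m := mem_of (mem_tw.1 hD) r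
    have h4 := exact_kD (K := K) (H r) Asm.d_SEL Asm.d_BDX Asm.d_KDR m (ho r) D hD'
    rw [(kD_pow (H r) Asm.d_KDR (ho r) hD').1] at h4
    obtain ⟨g1, g2, g3⟩ := Asm.d_CRD K _ k[X] _ h4 (by positivity)
    exact order_of g1 g2 g3
  · intro f u C hf
    exact key f u C hf
  · intro u
    obtain ⟨U, hU⟩ : ∃ U : ℕ, ∀ r, u r ≤ U := ⟨∑ r, u r, fun r => Finset.single_le_sum (fun _ _ => Nat.zero_le _) (Finset.mem_univ r)⟩
    obtain ⟨-, g2⟩ := key (fun x => ∏ r, ((2 : ℝ) ^ x r) ^ u r) U 1 (fun x => by
      rw [one_mul, abs_of_nonneg (Finset.prod_nonneg fun r _ => by positivity)]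
      unfold wt
      refine Finset.prod_le_prod (fun r _ => by positivity) fun r _ => ?_
      rw [← pow_mul, ← pow_mul]
      exact pow_le_pow_right₀ (by norm_num) (by rw [mul_comm]; exact Nat.mul_le_mul_right _ (hU r)))
    have g3 := hasSum_prod (fun r e => law e * ((2 : ℝ) ^ u r) ^ e) (fun r => ∏ i ∈ Finset.range (u r), (1 + (2 : ℝ) ^ (i + 1)))
      (fun r e => mul_nonneg (by rw [← law_eq]; exact Pool.Agent.Q269.SL.law2_nonneg _) (by positivity))
      (fun r => by rw [← law_eq]; exact mom_law2 (u r))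
    have g4 : (∑' x : R → ℕ, (∏ r, ((2 : ℝ) ^ x r) ^ u r) * ∏ r, law (x r)) =
        ∏ r, ∏ i ∈ Finset.range (u r), (1 + (2 : ℝ) ^ (i + 1)) := by
      rw [← g3.tsum_eq]
      refine tsum_congr fun x => ?_
      rw [← Finset.prod_mul_distrib]
      refine Finset.prod_congr rfl fun r _ => ?_
      rw [← pow_mul, ← pow_mul, mul_comm (x r) (u r), mul_comm]
    rw [g4] at g2
    exact g2
  · intro r
    obtain ⟨-, g2⟩ := key (fun x => (x r : ℝ)) 1 1 (fun x => by
      rw [one_mul, abs_of_nonneg (Nat.cast_nonneg _)]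
      have h1 : (x r : ℝ) ≤ (2 : ℝ) ^ x r := by exact_mod_cast (Nat.lt_two_pow_self (n := x r)).le
      refine h1.trans ?_
      unfold wt
      rw [← Finset.mul_prod_erase Finset.univ (fun r => ((2 : ℝ) ^ 1) ^ x r) (Finset.mem_univ r), pow_one]
      refine le_mul_of_one_le_right (by positivity) ?_
      calc (1 : ℝ) = ∏ _s ∈ Finset.univ.erase r, (1 : ℝ) := by rw [Finset.prod_const_one]
        _ ≤ ∏ s ∈ Finset.univ.erase r, ((2 : ℝ)) ^ x s :=
          Finset.prod_le_prod (fun _ _ => zero_le_one) fun s _ => one_le_pow₀ (by norm_num))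
    have g3 := hasSum_prod (fun s e => if s = r then (e : ℝ) * law e else law e) (fun s => if s = r then rho else 1)
      (fun s e => by
        have : 0 ≤ law e := by rw [← law_eq]; exact Pool.Agent.Q269.SL.law2_nonneg _
        split_ifs
        · exact mul_nonneg (Nat.cast_nonneg _) this
        · exact this)
      (fun s => by
        split_ifs
        · rw [rho_eq, ← law_eq]
          exact Pool.Agent.Q269.AV.summable_elaw.hasSum
        · rw [← law_eq]
          exact hasSum_law2)
    have g4 : (∑' x : R → ℕ, (x r : ℝ) * ∏ r, law (x r)) = rho := by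
      have e1 : ∏ s, (if s = r then rho else (1 : ℝ)) = rho := by
        rw [Finset.prod_ite_eq' Finset.univ r]
        simp
      rw [← e1, ← g3.tsum_eq]
      refine tsum_congr fun x => ?_
      rw [← Finset.mul_prod_erase Finset.univ (fun s => law (x s)) (Finset.mem_univ r),
        ← Finset.mul_prod_erase Finset.univ (fun s => if s = r then (x s : ℝ) * law (x s) else law (x s)) (Finset.mem_univ r),
        if_pos rfl, mul_assoc]
      congr 2
      refine Finset.prod_congr rfl fun s hs => ?_
      rw [if_neg (Finset.ne_of_mem_erase hs)]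
    rw [g4] at g2
    exact g2

end Pool.Agent.Results.MP_72e2e6_nt.ExactAverages
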