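import Pool.Agent.HT177.Split.MQ

/-!
# Quadratic twists with finite groups of points and bounded Tate-Shafarevich groups over multiquadratic extensions of `F_q(t)`

Let `k` be a finite field of characteristic different from `2` in which `-1` is a square, `K = k(t)`, and
let `E : y² = x (x - a) (x - b)` be an elliptic curve over `K`, where `a`, `b` are coprime polynomials, `a`,
`b`, `a - b` have the same degree `N` and none of `a b`, `a (a - b)`, `b (a - b)` is a constant multiple of
a square. `E_D : y² = x (x - a D) (x - b D)` are the quadratic twists of `E`. Let `NonSplitTwists a b n` be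
the set of the monic squarefree polynomials `D` of degree `n`, prime to `a b (a - b)`, for which `E_D` has
non-split multiplicative reduction at all the finite places at which `E` has bad reduction, and let `n` go to
infinity through the numbers with `n + N` odd. Let `m_0, m_1, m_2, …` be ANY sequence of pairwise coprime
nonconstant monic squarefree polynomials of even degree that are squares modulo all the prime divisors of
`a b (a - b)`, and for a finite set `I` of numbers let `L_I = K(√m_i, i ∈ I)`, a Galois extension of `K`.
Let `c = ∏_{i odd} (1 - 2^{-i}) = 0.4194…`. A curve over `K` is called good if its group of points over `K`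
is finite and the 2-primary part of its Tate-Shafarevich group over `K` is zero.

For every `I` the proportion of the `D` for which all the twists of `E_D` by the quadratic characters of
`Gal(L_I/K)` are good, that is, `E_{D m_S}`, `m_S = ∏_{i ∈ S} m_i`, for all the `S ⊆ I`, converges to
`c ^ (2 ^ |I|)`. For all these `D` the group `E_D(L_I)` is finite and `2 ^ |I|` kills the 2-primary part
of the Tate-Shafarevich group of `E_D` over `L_I` (which is therefore finite, and by Kato and Trihan the
whole group is finite).
-/

set_option autoImplicit false

namespace Pool.Agent.Results.MP_72e2e6_nt.FiniteOverMultiquadratic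

open Polynomial Filter IsDedekindDomain Pool.Agent.TH115.GD Pool.Agent.HT177.Split.MQ
open scoped Classical

theorem result (k : Type) [Field k] [Finite k] (h2 : (2 : k) ≠ 0) (hi : IsSquare (-1 : k))
    (K : Type) [Field K] [Algebra k[X] K] [IsFractionRing k[X] K] (a b : k[X]) (N : ℕ)
    (hco : IsCoprime a b) (ha : a.natDegree = N) (hb : b.natDegree = N)
    (hab : (a - b).natDegree = N) (h₁ : NotConstSquare (a * b))
    (h₂ : NotConstSquare (a * (a - b))) (h₃ : NotConstSquare (b * (a - b)))
    (m : ℕ → k[X]) (hm : Multipliers a b m) :
    (∀ I : Finset ℕ, Tendsto (proportion a b fun D =>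
      ∀ S ⊆ I, Good k (twist K a b (D * ∏ i ∈ S, m i))) (degrees N) (nhds (c ^ 2 ^ I.card))) ∧
    (∀ (D : k[X]) (I : Finset ℕ), (∀ S ⊆ I, Good k (twist K a b (D * ∏ i ∈ S, m i))) →
      FinitePoints (twist K a b D) (extension K m I) ∧
        ShaKilled k (twist K a b D) (extension K m I) I.card) ∧
    0.4194 < c ∧ c < 0.4195 := by
  obtain ⟨h3, h4, -, -, h7, h8⟩ := all k h2 hi K a b N hco ha hb hab h₁ h₂ h₃ m hm
  exact ⟨h3, h4, h7, h8⟩

end Pool.Agent.Results.MP_72e2e6_nt.FiniteOverMultiquadratic
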