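import Pool.Agent.Q45.TG.Rat

/-!
# The Tate-Shafarevich group over all Galois `p`-extensions of `k(s)` for superelliptic Jacobians whose
# branch curve has a class number prime to `p`

Let `p` be a prime, `q` a power of `p`, `k` a field (for example a finite field) which contains a
primitive root of unity of order `q`, and `F(x, s)` a polynomial over `k`, monic in `x` of degree
prime to `p`, irreducible, with `∂F / ∂x ≠ 0`. Let `J` be the Jacobian of the curve `w ^ q = F(x, s)` over
`K = k(s)`. Suppose that the affine curve `C : F(x, s) = 0` is smooth over `k`, that the units of its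
coordinate ring `k[s, x] / (F)` are constants, and that its class group has no element of order `p`.
(If `C` has only one place at infinity, of degree one, then the units are constants and the class group
is the group of the rational points of the Jacobian of `C`.)

(1) Let `L` be any finite Galois extension of `K` whose degree is a power of `p`, which is ramified,
over the affine `s`-line, only over places `b` such that `F(x, s)` modulo `b` is irreducible and
separable. Then the `p`-primary part of the Tate-Shafarevich group of `J` over `L` is zero and every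
element of `J(L)` is `p` times exactly one element of `J(L)`.

(2) The conditions on `F` hold for all the polynomials `F = g(x) + s`, where `g` is monic of degree
prime to `p` with `g' ≠ 0` (`C` is the affine line), and `F` modulo `b` is irreducible and separable if
`b(-g(x))` is irreducible and separable over `k`.

If `k` is finite, then it follows (Mordell-Weil, Tate, Milne, Kato-Trihan) that `J(L)` is finite of order
prime to `p` and that the whole group `Ш(J / L)` is finite, for all these extensions `L`. If
`F = g(x) + s` and the degree of `g` is prime to the characteristic, then the places `b` which are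
allowed have a positive density (Chebotarev).
-/

set_option autoImplicit false
set_option linter.all false

open Polynomial IsDedekindDomain
open scoped Classical

namespace Pool.Agent.Results.MP_72e2e6_nt.GaloisPExtensions

open Pool.Agent.Y160.SL

/-- The polynomial `F(x, s)` over the field `L` which contains `k[s]`. -/
noncomputable def fPoly {k : Type} [Field k] (F : k[X][X]) (L : Type) [Field L] [Algebra k[X] L] :
    L[X] := F.map (algebraMap k[X] L)

/-- The partial derivative of `F(x, s)` with respect to `s`: the derivative is applied to the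
coefficients. -/
noncomputable def derivS {k : Type} [Field k] (F : k[X][X]) : k[X][X] :=
  F.sum fun i a => C (derivative a) * X ^ i

/-- The coordinate ring `k[s, x] / (F)` of the affine curve `F(x, s) = 0`. -/
abbrev BranchRing {k : Type} [Field k] (F : k[X][X]) : Type := AdjoinRoot F

/-- The affine curve `F(x, s) = 0` is smooth. -/
def IsSmooth {k : Type} [Field k] (F : k[X][X]) : Prop :=
  ∃ a b c : k[X][X], a * F + b * derivative F + c * derivS F = 1

/-- The units of the coordinate ring are constants. -/
def UnitsAreConstants {k : Type} [Field k] (F : k[X][X]) : Prop :=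
  ∀ u : (BranchRing F)ˣ, ∃ c : k, (u : BranchRing F) = AdjoinRoot.of F (C c)

/-- The coordinate ring has no ideal class of order `p`: if `J ^ p` is principal then so is `J`. -/
def NoClassOfOrder {k : Type} [Field k] (p : ℕ) (F : k[X][X]) : Prop :=
  ∀ J : Ideal (BranchRing F), (J ^ p).IsPrincipal → J.IsPrincipal

/-- The conditions on the curve `F(x, s) = 0`: the polynomial `F` is monic in `x` of degree prime to
`p`, irreducible, with `∂F / ∂x ≠ 0`; the affine curve is smooth, its coordinate ring is a Dedekind
domain in which the units are constants, without ideal classes of order `p`. -/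
structure IsBranchCurve {k : Type} [Field k] (p : ℕ) (F : k[X][X]) : Prop where
  monic : F.Monic
  coprime : p.Coprime F.natDegree
  irreducible : Irreducible F
  deriv_ne : derivative F ≠ 0
  smooth : IsSmooth F
  dedekind : IsDedekindDomain (BranchRing F)
  units : UnitsAreConstants F
  noTorsion : NoClassOfOrder p F

/-- The polynomial `F(x, s)` modulo `b(s)`. -/
noncomputable def modF {k : Type} [Field k] (F : k[X][X]) (b : k[X]) :
    (k[X] ⧸ Ideal.span {b})[X] := F.map (Ideal.Quotient.mk (Ideal.span {b}))

/-- The extension `A` of the ring `k[s]` is ramified only over monic irreducible polynomials `b` such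
that `F` modulo `b` is irreducible and separable. -/
def AdmissibleRamification {k : Type} [Field k] (F : k[X][X]) (A : Type) [CommRing A]
    [Algebra k[X] A] : Prop :=
  ∀ (v : HeightOneSpectrum A) (b : k[X]), b.Monic → Irreducible b →
    algebraMap k[X] A b ∈ v.asIdeal ^ 2 → Irreducible (modF F b) ∧ (modF F b).Separable

/-- The `p`-primary part of the Tate-Shafarevich group of `J` over `L` is zero (even with respect to
the maximal ideals of the integral closure `A` of `k[s]` in `L` only), and `J(L)` is uniquely divisible
by `p`, for every finite Galois extension `L` of `K = k(s)` of degree a power of `p` with an admissible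
ramification. -/
def HoldsOverPExtensions {k : Type} [Field k] (p q : ℕ) (F : k[X][X]) : Prop :=
  ∀ (K L : Type) [Field K] [Algebra k[X] K] [IsFractionRing k[X] K] [Field L] [Algebra K L]
    [FiniteDimensional K L] [IsGalois K L] [Algebra k[X] L] [IsScalarTower k[X] K L] (n : ℕ),
    Module.finrank K L = p ^ n → ∀ (A : Type) [CommRing A] [IsDedekindDomain A] [Algebra A L]
      [IsFractionRing A L] [Algebra k[X] A] [IsScalarTower k[X] A L] [IsIntegralClosure A k[X] L],
      AdmissibleRamification F A →
        ShaTriv p q A (fPoly F L) ∧ ∀ P : Jac q (fPoly F L) L, ∃! Q : Jac q (fPoly F L) L, p • Q = P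

theorem ram_of {k : Type} [Field k] {F : k[X][X]} {A : Type} [CommRing A] [Algebra k[X] A]
    (h : AdmissibleRamification F A) : Pool.Agent.Q45.TG.Ram F A := by
  intro v b hb hbv
  have hl : b.leadingCoeff ≠ 0 := leadingCoeff_ne_zero.2 hb.ne_zero
  have hu : IsUnit (C (b.leadingCoeff⁻¹) : k[X]) := isUnit_C.2 (isUnit_iff_ne_zero.2 (inv_ne_zero hl))
  have hm : (b * C b.leadingCoeff⁻¹).Monic := monic_mul_leadingCoeff_inv hb.ne_zero
  have hi : Irreducible (b * C b.leadingCoeff⁻¹) := (irreducible_mul_isUnit hu).2 hb
  have h1 := h v _ hm hi (by
    rw [map_mul]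
    exact Ideal.mul_mem_right _ _ hbv)
  have hs : Ideal.span {b * C b.leadingCoeff⁻¹} = Ideal.span {b} :=
    Ideal.span_singleton_mul_right_unit hu b
  have key : ∀ I : Ideal k[X], I = Ideal.span {b} →
      (Irreducible (F.map (Ideal.Quotient.mk I)) ∧ (F.map (Ideal.Quotient.mk I)).Separable) →
      (Irreducible (F.map (Ideal.Quotient.mk (Ideal.span {b}))) ∧
        (F.map (Ideal.Quotient.mk (Ideal.span {b}))).Separable) := by
    rintro I rfl h
    exact h
  exact key _ hs h1

/-- The polynomial `g(x) + s`. -/
noncomputable def lineF {k : Type} [Field k] (g : k[X]) : k[X][X] := g.map C + C X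

/-- (1) All curves `C`. -/
def General : Prop :=
  ∀ (p e : ℕ), p.Prime → e ≠ 0 → ∀ (k : Type) [Field k] (ζ : k), IsPrimitiveRoot ζ (p ^ e) →
    ∀ F : k[X][X], IsBranchCurve p F → HoldsOverPExtensions p (p ^ e) F

/-- (2) The conditions in the case of the affine line. -/
def AffineLine : Prop :=
  ∀ (p : ℕ), p.Prime → ∀ (k : Type) [Field k] (g : k[X]), g.Monic → p.Coprime g.natDegree →
    derivative g ≠ 0 → IsBranchCurve p (lineF g) ∧ ∀ b : k[X], Irreducible b →
      Irreducible (b.comp (-g)) → (b.comp (-g)).Separable →
        Irreducible (modF (lineF g) b) ∧ (modF (lineF g) b).Separable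

theorem pos_of {p n : ℕ} (hp : p.Prime) (h : p.Coprime n) : 0 < n := by
  rw [Nat.pos_iff_ne_zero]
  rintro rfl
  rw [Nat.coprime_zero_right] at h
  exact hp.ne_one h

/-- **Galois extensions of degree a power of `p`.** -/
theorem result : General ∧ AffineLine := by
  refine ⟨?_, ?_⟩
  · intro p e hp he k _ ζ hζ F hF K L _ _ _ _ _ _ _ _ _ n hn A _ _ _ _ _ _ _ hA
    have hζp := Pool.Agent.Q45.TL.zeta_p hp rfl he hζ
    obtain ⟨m, s, hT⟩ := Pool.Agent.Q45.TG.tower_of_gal hp hζp n K L hn
      ⟨0, _, Pool.Agent.Q45.TG.tower_base inferInstance⟩
    obtain ⟨h1, h2⟩ := Pool.Agent.Q45.TG.sha_tower hp rfl he hζ hF.monic hF.irreducible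
      (pos_of hp hF.coprime) hF.coprime hF.deriv_ne hF.smooth
      ⟨hF.dedekind, hF.units, hF.noTorsion⟩ hT (A := A) (ram_of hA)
    exact ⟨shaTriv_of h1, h2⟩
  · intro p hp k _ g hg hcop hd
    have hpos := pos_of hp hcop
    have hB := Pool.Agent.Q45.TG.gs_isBr (p := p) g
    refine ⟨⟨Pool.Agent.Q45.TG.gs_monic hg hpos, ?_, Pool.Agent.Q45.TG.gs_irr hg hpos,
      Pool.Agent.Q45.TG.gs_der hd, Pool.Agent.Q45.TG.gs_smooth g, hB.ded, hB.units, hB.cls⟩,
      fun b hb h1 h2 => ⟨Pool.Agent.Q45.TG.gs_red hg hpos hb h1,
        Pool.Agent.Q45.TG.gs_sep hb h2⟩⟩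
    have h1 : (lineF g).natDegree = g.natDegree := Pool.Agent.Q45.TG.gs_natDegree hg hpos
    rw [h1]
    exact hcop

end Pool.Agent.Results.MP_72e2e6_nt.GaloisPExtensions
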